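import Pool.Agent.H37.CNZ.Stmts

/-!
# Row CUQ of the board `cnz` (the conductor at a place is unique)
-/

set_option autoImplicit false

namespace Pool.CND

open Finset

namespace CUQ

variable {k L G : Type} [Field k] [Field L] [Algebra k L] [Group G]

theorem ram_anti (P : Place k L) (ρ : G →* (L ≃ₐ[k] L)) {i j : ℕ} (h : i ≤ j) :
    ram P ρ j ⊆ ram P ρ i := by
  rintro g ⟨h1, h2⟩
  refine ⟨h1, fun u hu hu1 => ?_⟩
  rcases h2 u hu hu1 with h3 | h3
  · exact Or.inl h3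
  · right
    have : (i : ℤ) ≤ j := by exact_mod_cast h
    omega

theorem one_mem (P : Place k L) (ρ : G →* (L ≃ₐ[k] L)) (i : ℕ) : (1 : G) ∈ ram P ρ i := by
  refine ⟨fun x _ => ?_, fun u _ _ => Or.inl ?_⟩
  · simp
  · simp

theorem aux (P : Place k L) (ρ : G →* (L ≃ₐ[k] L)) {l l' : ℕ} (h1 : ram P ρ (l + 1) = {1})
    (h2 : ram P ρ l' ≠ {1}) : l' ≤ l := by
  by_contra hc
  push Not at hc
  apply h2
  apply Set.Subset.antisymm
  · rw [← h1]
    exact ram_anti P ρ (by omega)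
  · intro g hg
    rw [Set.mem_singleton_iff] at hg
    rw [hg]
    exact one_mem P ρ l'

end CUQ

theorem cuq_thm : S_CUQ := by
  intro k L G _ _ _ _ ρ P c c' h h'
  obtain ⟨l, h1, h2, rfl⟩ := h
  obtain ⟨l', h1', h2', rfl⟩ := h'
  have h3 : l' ≤ l := CUQ.aux P ρ h2 h1'
  have h4 : l ≤ l' := CUQ.aux P ρ h2' h1
  have h5 : l = l' := le_antisymm h4 h3
  subst h5
  rfl

end Pool.CND
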