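import Pool.Agent.H37.CNZ.Stmts

/-!
# Row ZFF of the board `cnz` (finite fields in `k`)
-/

set_option autoImplicit false

namespace Pool.CND

open Finset

namespace ZFF

theorem key (K1 K2 : Type) [Field K1] [Field K2] [Algebra K1 K2] [Finite K1] [Finite K2]
    [FiniteDimensional K1 K2] (r : ℕ) (hr : Module.finrank K1 K2 = r)
    (γ : Module.Basis (Fin r) K1 K2) :
    ∃ δ : Fin r → K2, ∀ (i : Fin r) (u : Fin r → K1),
      ∑ s ∈ range r, (γ i * ∑ i', algebraMap K1 K2 (u i') * δ i') ^ (Nat.card K1 ^ s) =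
        algebraMap K1 K2 (u i) := by
  classical
  refine ⟨(Algebra.traceForm K1 K2).dualBasis (traceForm_nondegenerate K1 K2) γ, fun i u => ?_⟩
  have h := FiniteField.algebraMap_trace_eq_sum_pow K1 K2 (γ i * ∑ i', algebraMap K1 K2 (u i') *
    (Algebra.traceForm K1 K2).dualBasis (traceForm_nondegenerate K1 K2) γ i')
  rw [hr] at h
  rw [← h]
  congr 1
  have h2 : γ i * ∑ i', algebraMap K1 K2 (u i') *
      (Algebra.traceForm K1 K2).dualBasis (traceForm_nondegenerate K1 K2) γ i' =
      ∑ i', u i' • (γ i *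
        (Algebra.traceForm K1 K2).dualBasis (traceForm_nondegenerate K1 K2) γ i') := by
    rw [Finset.mul_sum]
    refine Finset.sum_congr rfl fun i' _ => ?_
    rw [Algebra.smul_def]
    ring
  rw [h2, map_sum]
  have h3 : ∀ i', Algebra.trace K1 K2 (u i' • (γ i *
        (Algebra.traceForm K1 K2).dualBasis (traceForm_nondegenerate K1 K2) γ i')) =
        if i = i' then u i' else 0 := by
    intro i'
    rw [map_smul]
    have h4 := LinearMap.BilinForm.apply_dualBasis_right (traceForm_nondegenerate K1 K2)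
      (Algebra.traceForm_isSymm K1 (S := K2)) γ i i'
    rw [Algebra.traceForm_apply] at h4
    rw [h4]
    split_ifs <;> simp
  rw [Finset.sum_congr rfl fun i' _ => h3 i']
  simp

end ZFF

theorem zff_thm : S_ZFF := by
  intro p n r k F _ _ _ _ _ _ hp hn hr
  haveI : Fact p.Prime := ⟨hp⟩
  haveI : NeZero n := ⟨by omega⟩
  haveI : NeZero r := ⟨by omega⟩
  let K1 := FiniteField.Extension F p n
  haveI : CharP K1 p := charP_of_injective_algebraMap (algebraMap F K1).injective p
  let K2 := FiniteField.Extension K1 p r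
  letI : Algebra (ZMod p) k := ZMod.algebra k p
  let σ : K2 →ₐ[ZMod p] k := IsAlgClosed.lift
  have hσ : Function.Injective σ := σ.toRingHom.injective
  let γ : Module.Basis (Fin r) K1 K2 :=
    Module.finBasisOfFinrankEq K1 K2 (FiniteField.finrank_extension K1 p r)
  let ω : Module.Basis (Fin n) F K1 :=
    Module.finBasisOfFinrankEq F K1 (FiniteField.finrank_extension F p n)
  have hcard : Nat.card K1 = Nat.card F ^ n := FiniteField.natCard_extension F p n
  obtain ⟨δ, hδ⟩ := ZFF.key K1 K2 r (FiniteField.finrank_extension K1 p r) γ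
  have h4 : ∀ i : Fin r, ∀ v : Fin r → Fin n → F,
      ∑ s ∈ range r, (σ (γ i) * ∑ i', ∑ l,
        ((σ : K2 →+* k).comp ((algebraMap K1 K2).comp (algebraMap F K1))) (v i' l) *
          σ (δ i' * algebraMap K1 K2 (ω l))) ^ (Nat.card F ^ (n * s)) =
        ∑ l, ((σ : K2 →+* k).comp ((algebraMap K1 K2).comp (algebraMap F K1))) (v i l) *
          σ (algebraMap K1 K2 (ω l)) := by
    intro i v
    have h5 := congrArg σ (hδ i (fun i' => ∑ l, algebraMap F K1 (v i' l) * ω l))
    have h6 : ∀ i' : Fin r, ∑ l,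
        ((σ : K2 →+* k).comp ((algebraMap K1 K2).comp (algebraMap F K1))) (v i' l) *
          σ (δ i' * algebraMap K1 K2 (ω l)) =
        σ (algebraMap K1 K2 (∑ l, algebraMap F K1 (v i' l) * ω l) * δ i') := by
      intro i'
      rw [map_sum, Finset.sum_mul, map_sum]
      refine Finset.sum_congr rfl fun l _ => ?_
      simp only [RingHom.comp_apply, map_mul, RingHom.coe_coe]
      ring
    rw [Finset.sum_congr rfl fun i' _ => h6 i', ← map_sum, ← map_mul]
    have h7 : ∀ s : ℕ, Nat.card F ^ (n * s) = Nat.card K1 ^ s := fun s => by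
      rw [hcard, pow_mul]
    simp only [h7]
    rw [map_sum] at h5
    simp only [map_pow] at h5
    rw [h5, map_sum, map_sum]
    refine Finset.sum_congr rfl fun l _ => ?_
    simp only [RingHom.comp_apply, map_mul, RingHom.coe_coe]
  have h2 : ∀ v : Fin n → F,
      ∑ l, ((σ : K2 →+* k).comp ((algebraMap K1 K2).comp (algebraMap F K1))) (v l) *
        σ (algebraMap K1 K2 (ω l)) = 0 → v = 0 := by
    intro v hv
    have h5 : σ (algebraMap K1 K2 (∑ l, v l • ω l)) = 0 := by
      rw [← hv, map_sum, map_sum]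
      refine Finset.sum_congr rfl fun l _ => ?_
      rw [Algebra.smul_def]
      simp only [RingHom.comp_apply, map_mul, RingHom.coe_coe]
    rw [map_eq_zero_iff σ hσ, map_eq_zero_iff _ (algebraMap K1 K2).injective] at h5
    have h6 := Fintype.linearIndependent_iff.1 ω.linearIndependent v h5
    funext l
    exact h6 l
  have h3 : ∀ v : Fin r → F,
      ∑ i, ((σ : K2 →+* k).comp ((algebraMap K1 K2).comp (algebraMap F K1))) (v i) *
        σ (γ i) = 0 → v = 0 := by
    intro v hv
    have h5 : σ (∑ i, algebraMap F K1 (v i) • γ i) = 0 := by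
      rw [← hv, map_sum]
      refine Finset.sum_congr rfl fun l _ => ?_
      rw [Algebra.smul_def]
      simp only [RingHom.comp_apply, map_mul, RingHom.coe_coe]
    rw [map_eq_zero_iff σ hσ] at h5
    have h6 := Fintype.linearIndependent_iff.1 γ.linearIndependent
      (fun i => algebraMap F K1 (v i)) h5
    funext l
    exact (map_eq_zero_iff _ (algebraMap F K1).injective).1 (h6 l)
  refine ⟨(σ : K2 →+* k).comp ((algebraMap K1 K2).comp (algebraMap F K1)),
    fun i l => σ (δ i * algebraMap K1 K2 (ω l)), fun l => σ (algebraMap K1 K2 (ω l)),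
    fun i => σ (γ i), ?_, h2, h3, h4⟩
  intro v hv
  funext i
  apply h2
  rw [← h4 i v, hv]
  refine Finset.sum_eq_zero fun s _ => ?_
  rw [mul_zero, zero_pow]
  exact pow_ne_zero _ Nat.card_pos.ne'

end Pool.CND
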