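import Pool.Agent.H37.CNZ.Stmts

/-!
# Row ZHD of the board `cnz` (the data of `ZMN` from `ZFF`)
-/

set_option autoImplicit false

namespace Pool.CND

open Finset Matrix

namespace ZHD

/-! ## The polynomials -/

section Poly

variable {k F : Type} [Field k] [Field F]

/-- the polynomial of the pair `lam`, `mu` -/
noncomputable def Psi (p e q n r : ℕ) (emb : F →+* k) (ω : Fin n → k) (γ : Fin r → k)
    (lam : Fin n → F) (mu : Fin r → F) : Polynomial k :=
  Polynomial.C (∑ l, emb (lam l) * ω l ^ p ^ e) +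
    ∑ s ∈ range r, ∑ i, Polynomial.C (emb (mu i) * γ i ^ p ^ (e + q * s)) *
      Polynomial.X ^ p ^ (e + q * s)

theorem Psi_add (p e q n r : ℕ) (emb : F →+* k) (ω : Fin n → k) (γ : Fin r → k)
    (lam lam' : Fin n → F) (mu mu' : Fin r → F) :
    Psi p e q n r emb ω γ (lam + lam') (mu + mu') =
      Psi p e q n r emb ω γ lam mu + Psi p e q n r emb ω γ lam' mu' := by
  unfold Psi
  have h1 : ∑ l, emb ((lam + lam') l) * ω l ^ p ^ e =
      ∑ l, emb (lam l) * ω l ^ p ^ e + ∑ l, emb (lam' l) * ω l ^ p ^ e := by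
    rw [← Finset.sum_add_distrib]
    refine Finset.sum_congr rfl fun l _ => ?_
    rw [Pi.add_apply, map_add, add_mul]
  have h2 : ∑ s ∈ range r, ∑ i, Polynomial.C (emb ((mu + mu') i) * γ i ^ p ^ (e + q * s)) *
      Polynomial.X ^ p ^ (e + q * s) =
      ∑ s ∈ range r, ∑ i, Polynomial.C (emb (mu i) * γ i ^ p ^ (e + q * s)) *
      Polynomial.X ^ p ^ (e + q * s) +
      ∑ s ∈ range r, ∑ i, Polynomial.C (emb (mu' i) * γ i ^ p ^ (e + q * s)) *
      Polynomial.X ^ p ^ (e + q * s) := by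
    rw [← Finset.sum_add_distrib]
    refine Finset.sum_congr rfl fun s _ => ?_
    rw [← Finset.sum_add_distrib]
    refine Finset.sum_congr rfl fun i _ => ?_
    rw [Pi.add_apply, map_add, add_mul, map_add, add_mul]
  rw [h1, h2, map_add]
  ring

theorem Psi_comp (p e q n r : ℕ) [Fact p.Prime] [CharP k p] (emb : F →+* k) (ω : Fin n → k)
    (γ : Fin r → k) (lam : Fin n → F) (mu : Fin r → F) (a : k) :
    (Psi p e q n r emb ω γ lam mu).comp (Polynomial.X + Polynomial.C a) =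
      Psi p e q n r emb ω γ lam mu +
        Polynomial.C (∑ s ∈ range r, ∑ i, emb (mu i) * γ i ^ p ^ (e + q * s) *
          a ^ p ^ (e + q * s)) := by
  unfold Psi
  rw [Polynomial.add_comp, Polynomial.C_comp, Polynomial.sum_comp, add_assoc]
  congr 1
  rw [map_sum, ← Finset.sum_add_distrib]
  refine Finset.sum_congr rfl fun s _ => ?_
  rw [Polynomial.sum_comp, map_sum, ← Finset.sum_add_distrib]
  refine Finset.sum_congr rfl fun i _ => ?_
  rw [Polynomial.mul_comp, Polynomial.C_comp, Polynomial.X_pow_comp, add_pow_char_pow, mul_add,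
    ← Polynomial.C_pow, ← Polynomial.C_mul]

theorem const_eq (p e q n r : ℕ) [Fact p.Prime] [CharP k p] (emb : F →+* k) (ω : Fin n → k)
    (γ : Fin r → k) (mu : Fin r → F) (a : k) (v : Fin r → Fin n → F)
    (h : ∀ i, ∑ s ∈ range r, (γ i * a) ^ p ^ (q * s) = ∑ l, emb (v i l) * ω l) :
    ∑ s ∈ range r, ∑ i, emb (mu i) * γ i ^ p ^ (e + q * s) * a ^ p ^ (e + q * s) =
      ∑ l, emb (∑ i, mu i * v i l ^ p ^ e) * ω l ^ p ^ e := by
  rw [Finset.sum_comm]
  have h1 : ∀ i, ∑ s ∈ range r, emb (mu i) * γ i ^ p ^ (e + q * s) * a ^ p ^ (e + q * s) =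
      ∑ l, emb (mu i * v i l ^ p ^ e) * ω l ^ p ^ e := by
    intro i
    have h2 : ∀ s ∈ range r, emb (mu i) * γ i ^ p ^ (e + q * s) * a ^ p ^ (e + q * s) =
        emb (mu i) * ((γ i * a) ^ p ^ (q * s)) ^ p ^ e := by
      intro s _
      rw [← pow_mul, ← pow_add, mul_assoc, ← mul_pow, add_comm (q * s) e]
    rw [Finset.sum_congr rfl h2, ← Finset.mul_sum, ← sum_pow_char_pow, h i, sum_pow_char_pow,
      Finset.mul_sum]
    refine Finset.sum_congr rfl fun l _ => ?_
    rw [mul_pow, map_mul, map_pow, mul_assoc]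
  rw [Finset.sum_congr rfl fun i _ => h1 i, Finset.sum_comm]
  refine Finset.sum_congr rfl fun l _ => ?_
  rw [map_sum, Finset.sum_mul]

/-- `P` is a sum of monomials `X ^ (p ^ j)`, `j ≤ J` (`j ≠ 0` if `p = 2`) -/
def Form (p J : ℕ) (P : Polynomial k) : Prop :=
  ∃ β : ℕ → k, (p = 2 → β 0 = 0) ∧
    P = ∑ j ∈ range (J + 1), Polynomial.C (β j) * Polynomial.X ^ (p ^ j)

theorem Form_zero (p J : ℕ) : Form p J (0 : Polynomial k) := ⟨fun _ => 0, fun _ => rfl, by simp⟩

theorem Form_add (p J : ℕ) (P Q : Polynomial k) (hP : Form p J P) (hQ : Form p J Q) :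
    Form p J (P + Q) := by
  obtain ⟨β, h1, rfl⟩ := hP
  obtain ⟨β', h1', rfl⟩ := hQ
  refine ⟨fun j => β j + β' j, fun h => ?_, ?_⟩
  · simp only [h1 h, h1' h, add_zero]
  · rw [← Finset.sum_add_distrib]
    refine Finset.sum_congr rfl fun j _ => ?_
    rw [map_add, add_mul]

theorem Form_sum (p J : ℕ) {ι : Type} (T : Finset ι) (P : ι → Polynomial k)
    (h : ∀ i ∈ T, Form p J (P i)) : Form p J (∑ i ∈ T, P i) :=
  Finset.sum_induction P (Form p J) (fun a b ha hb => Form_add p J a b ha hb) (Form_zero p J) h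

theorem Form_mono (p J j₀ : ℕ) (a : k) (h : j₀ ≤ J) (h2 : p = 2 → j₀ ≠ 0) :
    Form p J (Polynomial.C a * Polynomial.X ^ (p ^ j₀)) := by
  classical
  refine ⟨fun j => if j = j₀ then a else 0, fun hp => ?_, ?_⟩
  · simp only
    rw [if_neg (Ne.symm (h2 hp))]
  · rw [Finset.sum_eq_single j₀]
    · simp
    · intro j _ hj
      simp [hj]
    · intro hj
      exact absurd (Finset.mem_range.2 (by omega)) hj

theorem Psi_form (p e q n r : ℕ) (emb : F →+* k) (ω : Fin n → k)
    (γ : Fin r → k) (lam : Fin n → F) (mu : Fin r → F) (he : p = 2 → 1 ≤ e) :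
    ∃ (w : k) (β : ℕ → k), (p = 2 → β 0 = 0) ∧
    Psi p e q n r emb ω γ lam mu = Polynomial.C w + ∑ j ∈ range (e + q * (r - 1) + 1),
      Polynomial.C (β j) * Polynomial.X ^ (p ^ j) := by
  have h : Form p (e + q * (r - 1)) (∑ s ∈ range r, ∑ i, Polynomial.C (emb (mu i) *
      γ i ^ p ^ (e + q * s)) * Polynomial.X ^ p ^ (e + q * s)) := by
    refine Form_sum _ _ _ _ fun s hs => Form_sum _ _ _ _ fun i _ => Form_mono _ _ _ _ ?_ ?_
    · have h1 : s ≤ r - 1 := by
        rw [Finset.mem_range] at hs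
        omega
      have := Nat.mul_le_mul_left q h1
      omega
    · intro hp
      have := he hp
      omega
  obtain ⟨β, h1, h2⟩ := h
  refine ⟨∑ l, emb (lam l) * ω l ^ p ^ e, β, h1, ?_⟩
  unfold Psi
  rw [h2]

theorem Psi_coeff_top (p e q n r : ℕ) (hp : 2 ≤ p) (hq : 1 ≤ q) (hr : 1 ≤ r) (emb : F →+* k)
    (ω : Fin n → k) (γ : Fin r → k) (lam : Fin n → F) (mu : Fin r → F) :
    (Psi p e q n r emb ω γ lam mu).coeff (p ^ (e + q * (r - 1))) =
      ∑ i, emb (mu i) * γ i ^ p ^ (e + q * (r - 1)) := by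
  unfold Psi
  have h0 : p ^ (e + q * (r - 1)) ≠ 0 := pow_ne_zero _ (by omega)
  rw [Polynomial.coeff_add, Polynomial.coeff_C, if_neg h0, zero_add, Polynomial.finsetSum_coeff,
    Finset.sum_eq_single (r - 1)]
  · rw [Polynomial.finsetSum_coeff]
    refine Finset.sum_congr rfl fun i _ => ?_
    rw [Polynomial.coeff_C_mul, Polynomial.coeff_X_pow, if_pos rfl, mul_one]
  · intro s _ hs
    rw [Polynomial.finsetSum_coeff]
    refine Finset.sum_eq_zero fun i _ => ?_
    rw [Polynomial.coeff_C_mul, Polynomial.coeff_X_pow, if_neg, mul_zero]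
    intro h
    have h1 := Nat.pow_right_injective hp h
    have h2 : q * (r - 1) = q * s := by omega
    exact hs (Nat.eq_of_mul_eq_mul_left (by omega) h2).symm
  · intro h
    exact absurd (Finset.mem_range.2 (by omega)) h

theorem Psi_coeff_zero (p e q n r : ℕ) (hp : 2 ≤ p) (emb : F →+* k)
    (ω : Fin n → k) (γ : Fin r → k) (lam : Fin n → F) (mu : Fin r → F) :
    (Psi p e q n r emb ω γ lam mu).coeff 0 = ∑ l, emb (lam l) * ω l ^ p ^ e := by
  unfold Psi
  rw [Polynomial.coeff_add, Polynomial.coeff_C, if_pos rfl, Polynomial.finsetSum_coeff]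
  refine (add_eq_left.2 (Finset.sum_eq_zero fun s _ => ?_))
  rw [Polynomial.finsetSum_coeff]
  refine Finset.sum_eq_zero fun i _ => ?_
  have h0 : p ^ (e + q * s) ≠ 0 := pow_ne_zero _ (by omega)
  rw [Polynomial.coeff_C_mul, Polynomial.coeff_X_pow, if_neg (Ne.symm h0), mul_zero]

theorem Psi_natDegree_le (p e q n r : ℕ) (hp : 2 ≤ p) (emb : F →+* k)
    (ω : Fin n → k) (γ : Fin r → k) (lam : Fin n → F) (mu : Fin r → F) :
    (Psi p e q n r emb ω γ lam mu).natDegree ≤ p ^ (e + q * (r - 1)) := by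
  unfold Psi
  refine Polynomial.natDegree_add_le_of_degree_le (by rw [Polynomial.natDegree_C]; exact Nat.zero_le _) ?_
  refine Polynomial.natDegree_sum_le_of_forall_le _ _ fun s hs => ?_
  refine Polynomial.natDegree_sum_le_of_forall_le _ _ fun i _ => ?_
  refine (Polynomial.natDegree_C_mul_X_pow_le _ _).trans ?_
  refine Nat.pow_le_pow_right (by omega) ?_
  have h1 : s ≤ r - 1 := by
    rw [Finset.mem_range] at hs
    omega
  have := Nat.mul_le_mul_left q h1
  omega

theorem indep_pow (p : ℕ) [Fact p.Prime] [CharP k p] [CharP F p] [Finite F] (emb : F →+* k)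
    {m : ℕ} (γ : Fin m → k) (h : ∀ v : Fin m → F, ∑ i, emb (v i) * γ i = 0 → v = 0) (j : ℕ)
    (mu : Fin m → F) (h1 : ∑ i, emb (mu i) * γ i ^ p ^ j = 0) : mu = 0 := by
  have h2 : ∀ x : F, ∃ y : F, y ^ p ^ j = x := fun x =>
    ⟨(iterateFrobeniusEquiv F p j).symm x, by
      have := (iterateFrobeniusEquiv F p j).apply_symm_apply x
      rwa [iterateFrobeniusEquiv_def] at this⟩
  choose R hR using h2
  have h3 : (∑ i, emb (R (mu i)) * γ i) ^ p ^ j = 0 := by
    rw [sum_pow_char_pow, ← h1]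
    refine Finset.sum_congr rfl fun i _ => ?_
    rw [mul_pow, ← map_pow, hR]
  have h4 := h (fun i => R (mu i)) (pow_eq_zero_iff (pow_ne_zero _ (Fact.out (p := p.Prime)).ne_zero) |>.1 h3)
  funext i
  have h5 : R (mu i) = 0 := congrFun h4 i
  rw [← hR (mu i), h5, zero_pow (pow_ne_zero _ (Fact.out (p := p.Prime)).ne_zero)]
  rfl

theorem Psi_add_const (p e q n r : ℕ) (emb : F →+* k) (ω : Fin n → k) (γ : Fin r → k)
    (lam w : Fin n → F) (mu : Fin r → F) :
    Psi p e q n r emb ω γ lam mu + Polynomial.C (∑ l, emb (w l) * ω l ^ p ^ e) =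
      Psi p e q n r emb ω γ (lam + w) mu := by
  unfold Psi
  have h1 : ∑ l, emb ((lam + w) l) * ω l ^ p ^ e =
      ∑ l, emb (lam l) * ω l ^ p ^ e + ∑ l, emb (w l) * ω l ^ p ^ e := by
    rw [← Finset.sum_add_distrib]
    refine Finset.sum_congr rfl fun l _ => ?_
    rw [Pi.add_apply, map_add, add_mul]
  rw [h1, map_add Polynomial.C]
  ring

end Poly

/-! ## Homomorphisms to `F_p` -/

section Dual

variable (p : ℕ) [Fact p.Prime] {F : Type} [Field F] [Finite F] [Algebra (ZMod p) F]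

theorem dual1 (φ : F →+ ZMod p) : ∃ a : F, ∀ x, φ x = Algebra.trace (ZMod p) F (a * x) := by
  have hB := traceForm_nondegenerate (ZMod p) F
  refine ⟨((Algebra.traceForm (ZMod p) F).toDual hB).symm (φ.toZModLinearMap p), fun x => ?_⟩
  have h := ((Algebra.traceForm (ZMod p) F).toDual hB).apply_symm_apply (φ.toZModLinearMap p)
  have h2 := LinearMap.congr_fun h x
  rw [LinearMap.BilinForm.toDual_def, Algebra.traceForm_apply] at h2
  rw [h2]
  rfl

theorem uniq1 (a b : F) (h : ∀ x, Algebra.trace (ZMod p) F (a * x) =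
    Algebra.trace (ZMod p) F (b * x)) : a = b := by
  have hB := traceForm_nondegenerate (ZMod p) F
  have h1 : a - b = 0 := by
    refine hB.1 (a - b) fun x => ?_
    rw [Algebra.traceForm_apply, sub_mul, map_sub, h x, sub_self]
  exact sub_eq_zero.1 h1

theorem dualm {m : ℕ} (φ : (Fin m → F) →+ ZMod p) :
    ∃ a : Fin m → F, ∀ x, φ x = Algebra.trace (ZMod p) F (∑ i, a i * x i) := by
  classical
  have h : ∀ i : Fin m, ∃ a : F, ∀ x, φ (Pi.single i x) = Algebra.trace (ZMod p) F (a * x) :=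
    fun i => dual1 p (φ.comp (AddMonoidHom.single (fun _ : Fin m => F) i))
  choose a ha using h
  refine ⟨a, fun x => ?_⟩
  have h1 : x = ∑ i, Pi.single i (x i) := (Finset.univ_sum_single x).symm
  conv_lhs => rw [h1]
  rw [map_sum, map_sum]
  exact Finset.sum_congr rfl fun i _ => ha i (x i)

theorem uniqm {m : ℕ} (a b : Fin m → F) (h : ∀ x : Fin m → F,
    Algebra.trace (ZMod p) F (∑ i, a i * x i) = Algebra.trace (ZMod p) F (∑ i, b i * x i)) :
    a = b := by
  classical
  funext i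
  refine uniq1 p (a i) (b i) fun x => ?_
  have h1 := h (Pi.single i x)
  have h2 : ∀ c : Fin m → F, ∑ j, c j * (Pi.single i x : Fin m → F) j = c i * x := by
    intro c
    rw [Finset.sum_eq_single i]
    · simp
    · intro j _ hj
      simp [hj]
    · intro hi
      exact absurd (Finset.mem_univ i) hi
  rwa [h2, h2] at h1

end Dual

/-! ## The group -/

section Grp

variable {F G : Type} [Field F] [Group G] {n r : ℕ}

/-- `κ` as a homomorphism -/
def kap (κ : (Fin n → F) → (Fin r → F) → G)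
    (h : ∀ a a' c c', κ (a + a') (c + c') = κ a c * κ a' c') :
    Multiplicative ((Fin n → F) × (Fin r → F)) →* G :=
  MonoidHom.mk' (fun x => κ (Multiplicative.toAdd x).1 (Multiplicative.toAdd x).2)
    (fun x y => h _ _ _ _)

theorem kap_inj (κ : (Fin n → F) → (Fin r → F) → G)
    (h : ∀ a a' c c', κ (a + a') (c + c') = κ a c * κ a' c')
    (h1 : ∀ a c, κ a c = 1 → a = 0 ∧ c = 0) : Function.Injective (kap κ h) := by
  rw [injective_iff_map_eq_one]
  intro x hx
  have h2 := h1 _ _ hx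
  apply Multiplicative.toAdd.injective
  exact Prod.ext h2.1 h2.2

theorem mem_range (κ : (Fin n → F) → (Fin r → F) → G)
    (h : ∀ a a' c c', κ (a + a') (c + c') = κ a c * κ a' c') (a : Fin n → F) (c : Fin r → F) :
    κ a c ∈ (kap κ h).range := ⟨Multiplicative.ofAdd (a, c), rfl⟩

theorem data (p : ℕ) [Fact p.Prime] [Finite F] [Algebra (ZMod p) F]
    (κ : (Fin n → F) → (Fin r → F) → G)
    (h : ∀ a a' c c', κ (a + a') (c + c') = κ a c * κ a' c')
    (ℓ : (kap κ h).range →* Multiplicative (ZMod p)) :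
    ∃ (lam : Fin n → F) (mu : Fin r → F), ∀ a c,
      Multiplicative.toAdd (ℓ ⟨κ a c, mem_range κ h a c⟩) =
        Algebra.trace (ZMod p) F (∑ l, lam l * a l + ∑ i, mu i * c i) := by
  have hadd : ∀ a a' c c', Multiplicative.toAdd (ℓ ⟨κ (a + a') (c + c'), mem_range κ h _ _⟩) =
      Multiplicative.toAdd (ℓ ⟨κ a c, mem_range κ h a c⟩) +
        Multiplicative.toAdd (ℓ ⟨κ a' c', mem_range κ h a' c'⟩) := by
    intro a a' c c'
    rw [← toAdd_mul, ← map_mul]
    congr 2
    exact Subtype.ext (h a a' c c')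
  obtain ⟨lam, hlam⟩ := dualm p (m := n) (AddMonoidHom.mk'
    (fun a => Multiplicative.toAdd (ℓ ⟨κ a 0, mem_range κ h a 0⟩)) (fun a a' => by
      have := hadd a a' 0 0
      simp only [add_zero] at this
      exact this))
  obtain ⟨mu, hmu⟩ := dualm p (m := r) (AddMonoidHom.mk'
    (fun c => Multiplicative.toAdd (ℓ ⟨κ 0 c, mem_range κ h 0 c⟩)) (fun c c' => by
      have := hadd 0 0 c c'
      simp only [add_zero] at this
      exact this))
  refine ⟨lam, mu, fun a c => ?_⟩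
  have h2 := hadd a 0 0 c
  simp only [add_zero, zero_add] at h2
  rw [h2, map_add, ← hlam a, ← hmu c]
  rfl

end Grp

theorem uniq2 (p : ℕ) [Fact p.Prime] {F : Type} [Field F] [Finite F] [Algebra (ZMod p) F]
    {n r : ℕ} (x x' : Fin n → F) (y y' : Fin r → F)
    (h : ∀ (a : Fin n → F) (c : Fin r → F),
      Algebra.trace (ZMod p) F (∑ l, x l * a l + ∑ i, y i * c i) =
      Algebra.trace (ZMod p) F (∑ l, x' l * a l + ∑ i, y' i * c i)) : x = x' ∧ y = y' := by
  constructor
  · refine uniqm p x x' fun a => ?_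
    have := h a 0
    simpa using this
  · refine uniqm p y y' fun c => ?_
    have := h 0 c
    simpa using this

theorem mulVec_sum {F : Type} [Field F] {n r : ℕ} (B : Matrix (Fin r) (Fin n) F) (y : Fin r → F)
    (a : Fin n → F) : ∑ i, y i * (B *ᵥ a) i = ∑ l, (∑ i, y i * B i l) * a l := by
  have h1 : ∀ i, y i * (B *ᵥ a) i = ∑ l, y i * B i l * a l := by
    intro i
    rw [Matrix.mulVec, dotProduct, Finset.mul_sum]
    refine Finset.sum_congr rfl fun l _ => ?_
    ring
  rw [Finset.sum_congr rfl fun i _ => h1 i, Finset.sum_comm]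
  refine Finset.sum_congr rfl fun l _ => ?_
  rw [Finset.sum_mul]

end ZHD

theorem zhd_thm (h0 : S_ZFF) : S_ZHD := by
  classical
  intro p n r k F G _ _ _ _ _ _ _ _ κ β hp hn hr hq hκ hκ1 hβ hβs hconj
  have : Fact p.Prime := ⟨hp⟩
  let : Algebra (ZMod p) F := ZMod.algebra F p
  obtain ⟨emb, c, ω, γ, hc, hω, hγ, hT⟩ := h0 p n r k F hp hn hr
  obtain ⟨f, hf⟩ : ∃ f : ℕ, Nat.card F = p ^ f := by
    have := Fintype.ofFinite F
    obtain ⟨f, _, hf⟩ := FiniteField.card F p
    exact ⟨f, by rw [Nat.card_eq_fintype_card, hf]⟩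
  have hp2 : 2 ≤ p := hp.two_le
  have hqq : 2 < p ^ (f * n) := by rwa [pow_mul, ← hf]
  have hq1 : 1 ≤ f * n := by
    rcases Nat.eq_zero_or_pos (f * n) with h | h
    · rw [h, pow_zero] at hqq
      omega
    · exact h
  obtain ⟨e, he2, heq, hgcd⟩ : ∃ e : ℕ, (p = 2 → 1 ≤ e) ∧ e < f * n ∧ Nat.gcd 2 p = p ^ e := by
    by_cases h : p = 2
    · refine ⟨1, fun _ => le_rfl, ?_, by rw [h]; rfl⟩
      by_contra hcon
      have h1 : f * n = 1 := by omega
      rw [h1, h] at hqq
      omega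
    · refine ⟨0, fun h' => absurd h' h, hq1, ?_⟩
      rw [pow_zero]
      exact (Nat.coprime_primes Nat.prime_two hp).2 (Ne.symm h)
  obtain ⟨R, hR⟩ : ∃ R : F ≃+* F, ∀ x, (R x) ^ p ^ e = x :=
    ⟨(iterateFrobeniusEquiv F p e).symm, fun x => by
      have := (iterateFrobeniusEquiv F p e).apply_symm_apply x
      rwa [iterateFrobeniusEquiv_def] at this⟩
  choose lam mu hlm using ZHD.data p κ hκ
  have hβ1 : β 1 = 0 := by
    have := hβ 1 1
    rw [mul_one] at this
    exact left_eq_add.1 this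
  have hT' : ∀ (i : Fin r) (v : Fin r → Fin n → F),
      ∑ s ∈ range r, (γ i * ∑ i', ∑ l, emb (v i' l) * c i' l) ^ p ^ (f * n * s) =
        ∑ l, emb (v i l) * ω l := by
    intro i v
    rw [← hT i v]
    refine Finset.sum_congr rfl fun s _ => ?_
    rw [hf, ← pow_mul, mul_assoc]
  have hmul : ∀ ℓ ℓ', lam (ℓ * ℓ') = lam ℓ + lam ℓ' ∧ mu (ℓ * ℓ') = mu ℓ + mu ℓ' := by
    intro ℓ ℓ'
    refine ZHD.uniq2 p _ _ _ _ fun a c => ?_
    rw [← hlm, MonoidHom.mul_apply, toAdd_mul, hlm, hlm, ← map_add]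
    congr 1
    simp only [Pi.add_apply, add_mul, Finset.sum_add_distrib]
    ring
  have hcj : ∀ (g : G) (ℓ ℓ' : (ZHD.kap κ hκ).range →* Multiplicative (ZMod p)),
      (∀ a b : (ZHD.kap κ hκ).range, (b : G) = g * a * g⁻¹ → ℓ' b = ℓ a) →
      (fun l => lam ℓ' l + ∑ i, mu ℓ' i * β g i l) = lam ℓ ∧ mu ℓ' = mu ℓ := by
    intro g ℓ ℓ' h
    refine ZHD.uniq2 p _ _ _ _ fun a c => ?_
    have h1 := h ⟨κ a c, ZHD.mem_range κ hκ a c⟩
      ⟨κ a (c + β g *ᵥ a), ZHD.mem_range κ hκ _ _⟩ (hconj g a c).symm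
    have h2 := congrArg Multiplicative.toAdd h1
    rw [hlm, hlm] at h2
    rw [← h2]
    congr 1
    have h3 : ∑ i, mu ℓ' i * (c + β g *ᵥ a) i =
        ∑ i, mu ℓ' i * c i + ∑ l, (∑ i, mu ℓ' i * β g i l) * a l := by
      rw [← ZHD.mulVec_sum, ← Finset.sum_add_distrib]
      refine Finset.sum_congr rfl fun i _ => ?_
      rw [Pi.add_apply, mul_add]
    rw [h3]
    simp only [add_mul, Finset.sum_add_distrib]
    ring
  have hcomm : ∀ a c a' c', κ a c * κ a' c' = κ a' c' * κ a c := by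
    intro a c a' c'
    rw [← hκ, ← hκ, add_comm a, add_comm c]
  have hκ0 : κ 0 0 = 1 := (ZHD.kap κ hκ).map_one
  have hne : ∀ ℓ, ZHD.Psi p e (f * n) n r emb ω γ (lam ℓ) (mu ℓ) = 0 →
      lam ℓ = 0 ∧ mu ℓ = 0 := by
    intro ℓ h
    have h1 := ZHD.Psi_coeff_top p e (f * n) n r hp2 hq1 hr emb ω γ (lam ℓ) (mu ℓ)
    have h2 := ZHD.Psi_coeff_zero p e (f * n) n r hp2 emb ω γ (lam ℓ) (mu ℓ)
    rw [h, Polynomial.coeff_zero] at h1 h2
    exact ⟨ZHD.indep_pow p emb ω hω _ _ h2.symm, ZHD.indep_pow p emb γ hγ _ _ h1.symm⟩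
  have hιinj : ∀ v : Fin r → Fin n → F, ∑ i, ∑ l, emb (v i l) * c i l = 0 → v = 0 := hc
  refine ⟨(ZHD.kap κ hκ).range, fun g => ∑ i, ∑ l, emb (R (-(β g i l))) * c i l,
    fun ℓ => ZHD.Psi p e (f * n) n r emb ω γ (lam ℓ) (mu ℓ), f * n * r, e + f * n * (r - 1),
    ⟨⟨?_, ?_⟩, ?_, ?_, ?_, ?_, ?_, ?_, ?_, ?_⟩, ?_, ?_, ?_⟩
  · rintro _ ⟨x, rfl⟩
    rw [← map_pow]
    have : x ^ p = 1 := by
      apply Multiplicative.toAdd.injective
      rw [toAdd_pow, toAdd_one]
      refine Prod.ext ?_ ?_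
      · funext l
        simp [nsmul_eq_mul]
      · funext l
        simp [nsmul_eq_mul]
    rw [this, map_one]
  · rintro _ ⟨x, rfl⟩ _ ⟨y, rfl⟩
    exact hcomm _ _ _ _
  · rintro g _ ⟨x, rfl⟩
    refine ⟨Multiplicative.ofAdd ((Multiplicative.toAdd x).1,
      (Multiplicative.toAdd x).2 + β g *ᵥ (Multiplicative.toAdd x).1), ?_⟩
    exact (hconj g _ _).symm
  · intro g h
    rw [← Finset.sum_add_distrib]
    refine Finset.sum_congr rfl fun i _ => ?_
    rw [← Finset.sum_add_distrib]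
    refine Finset.sum_congr rfl fun l _ => ?_
    rw [hβ g h, Matrix.add_apply, neg_add, map_add, map_add, add_mul]
  · intro g
    constructor
    · intro h
      have h1 := hιinj _ h
      have h2 : β g = 0 := by
        ext i l
        have h3 : R (-(β g i l)) = 0 := congrFun (congrFun h1 i) l
        rw [map_eq_zero_iff R R.injective, neg_eq_zero] at h3
        exact h3
      rintro _ ⟨x, rfl⟩
      have h4 := hconj g (Multiplicative.toAdd x).1 (Multiplicative.toAdd x).2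
      rw [h2, Matrix.zero_mulVec, add_zero] at h4
      exact mul_inv_eq_iff_eq_mul.1 h4
    · intro h
      have h2 : β g = 0 := by
        ext i l
        have h4 := hconj g (Pi.single l 1) 0
        have h5 := h (κ (Pi.single l 1) 0) (ZHD.mem_range κ hκ _ _)
        rw [h5, mul_inv_cancel_right] at h4
        have h6 := ZHD.kap_inj κ hκ hκ1
          (a₁ := Multiplicative.ofAdd (Pi.single l 1, 0))
          (a₂ := Multiplicative.ofAdd (Pi.single l 1, 0 + β g *ᵥ Pi.single l 1)) h4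
        have h7 := congrArg (fun z => (Multiplicative.toAdd z).2) h6
        simp only [toAdd_ofAdd, zero_add] at h7
        have h8 := congrFun h7 i
        simp only [Pi.zero_apply, Matrix.mulVec_single_one] at h8
        exact h8.symm
      simp [h2]
  · intro ℓ ℓ'
    rw [(hmul ℓ ℓ').1, (hmul ℓ ℓ').2, ZHD.Psi_add]
  · intro ℓ hℓ h
    obtain ⟨h1, h2⟩ := hne ℓ h
    apply hℓ
    ext ⟨_, x, rfl⟩
    have h3 := hlm ℓ (Multiplicative.toAdd x).1 (Multiplicative.toAdd x).2
    rw [h1, h2] at h3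
    simp only [Pi.zero_apply, zero_mul, Finset.sum_const_zero, add_zero, map_zero] at h3
    exact h3
  · intro g ℓ ℓ' h
    obtain ⟨h1, h2⟩ := hcj g ℓ ℓ' h
    rw [ZHD.Psi_comp, ZHD.const_eq p e (f * n) n r emb ω γ (mu ℓ) _
      (fun i l => R (-(β g i l))) (fun i => hT' i _)]
    simp only [hR]
    rw [ZHD.Psi_add_const, h2]
    congr 1
    rw [← h1, ← h2]
    funext l
    simp only [Pi.add_apply, mul_neg, Finset.sum_neg_distrib]
    ring
  · intro ℓ
    exact ZHD.Psi_form p e (f * n) n r emb ω γ (lam ℓ) (mu ℓ) he2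
  · let φ : (Fin n → F) × (Fin r → F) →+ ZMod p :=
      (Algebra.trace (ZMod p) F).toAddMonoidHom.comp
        ((Pi.evalAddMonoidHom (fun _ : Fin r => F) ⟨0, hr⟩).comp
          (AddMonoidHom.snd (Fin n → F) (Fin r → F)))
    let Φ : (ZHD.kap κ hκ).range →* Multiplicative (ZMod p) :=
      (AddMonoidHom.toMultiplicative φ).comp
        (MonoidHom.ofInjective (ZHD.kap_inj κ hκ hκ1)).symm.toMonoidHom
    have hΦ : ∀ a c, Multiplicative.toAdd (Φ ⟨κ a c, ZHD.mem_range κ hκ a c⟩) =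
        Algebra.trace (ZMod p) F (c ⟨0, hr⟩) := by
      intro a c
      have h1 : (MonoidHom.ofInjective (ZHD.kap_inj κ hκ hκ1)).symm
          ⟨κ a c, ZHD.mem_range κ hκ a c⟩ = Multiplicative.ofAdd (a, c) := by
        rw [MulEquiv.symm_apply_eq]
        exact Subtype.ext rfl
      show Multiplicative.toAdd ((AddMonoidHom.toMultiplicative φ)
        ((MonoidHom.ofInjective (ZHD.kap_inj κ hκ hκ1)).symm
          ⟨κ a c, ZHD.mem_range κ hκ a c⟩)) = _
      rw [h1]
      rfl
    refine ⟨Φ, le_antisymm (ZHD.Psi_natDegree_le p e (f * n) n r hp2 emb ω γ _ _) ?_⟩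
    apply Polynomial.le_natDegree_of_ne_zero
    rw [ZHD.Psi_coeff_top p e (f * n) n r hp2 hq1 hr]
    intro h
    have h1 := ZHD.indep_pow p emb γ hγ _ _ h
    have h2 : (1 : F) = 0 := by
      refine ZHD.uniq1 p 1 0 fun x => ?_
      have h3 := hlm Φ 0 (Pi.single ⟨0, hr⟩ x)
      rw [hΦ, h1] at h3
      simp only [Pi.single_eq_same, Pi.zero_apply, zero_mul, mul_zero, Finset.sum_const_zero,
        add_zero] at h3
      rw [one_mul, zero_mul, h3]
    exact one_ne_zero h2
  · have hinj : Function.Injective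
        (fun v : Fin r → Fin n → F => ∑ i, ∑ l, emb (v i l) * c i l) := by
      intro v v' h
      have h1 : v - v' = 0 := by
        apply hc
        simp only at h
        simp only [Pi.sub_apply, map_sub, sub_mul, Finset.sum_sub_distrib]
        rw [h, sub_self]
      exact sub_eq_zero.1 h1
    have hrange : Set.range (fun g => ∑ i, ∑ l, emb (R (-(β g i l))) * c i l) =
        Set.range (fun v : Fin r → Fin n → F => ∑ i, ∑ l, emb (v i l) * c i l) := by
      ext x
      constructor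
      · rintro ⟨g, rfl⟩
        exact ⟨fun i l => R (-(β g i l)), rfl⟩
      · rintro ⟨v, rfl⟩
        obtain ⟨g, hg⟩ := hβs (fun i l => -(R.symm (v i l)))
        refine ⟨g, ?_⟩
        simp only [hg, neg_neg, RingEquiv.apply_symm_apply]
    rw [hrange, ← Nat.card_congr (Equiv.ofInjective _ hinj)]
    rw [Nat.card_fun, Nat.card_fun, Nat.card_fin, Nat.card_fin, hf, ← pow_mul, ← pow_mul, mul_assoc]
  · have h1 : f * n * r = f * n * (r - 1) + f * n := by
      obtain ⟨r', rfl⟩ : ∃ r', r = r' + 1 := ⟨r - 1, by omega⟩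
      rw [Nat.add_sub_cancel]
      ring
    omega
  · have h1 : f * n * r = f * n * (r - 1) + f * n := by
      obtain ⟨r', rfl⟩ : ∃ r', r = r' + 1 := ⟨r - 1, by omega⟩
      rw [Nat.add_sub_cancel]
      ring
    have h2 : f * n * r - (e + f * n * (r - 1)) = f * n - e := by omega
    rw [h2, hgcd, ← pow_add, hf, ← pow_mul]
    congr 1
    omega

end Pool.CND
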